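import Pool.Agent.MP_3ee8cb_gt.DR.RCB
import Pool.Agent.MP_3ee8cb_gt.NS.RIBP
import Pool.Agent.MP_3ee8cb_gt.DZ.RZERO

/-! The averaged field points inwards at bounded distance from a centre. -/

namespace Pool.Agent.MP_3ee8cb_gt.DRS

open Set Filter Topology MeasureTheory Real DN DZ DQ DR
open scoped RealInnerProductSpace

variable [Dim]

theorem dun {w a : V} (w0 : w ≠ 0) (h : ⟪w, a⟫ = 0) :
    HasDerivAt (fun t : ℝ => un (w + t • ‖w‖ • a)) a 0 := by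
  have n := norm_ne_zero_iff.2 w0
  have h1 : HasDerivAt (fun t : ℝ => w + t • ‖w‖ • a) (‖w‖ • a) 0 := by
    have := ((hasDerivAt_id (0 : ℝ)).smul_const (‖w‖ • a)).const_add w
    rwa [one_smul] at this
  have h2 := h1.norm_sq
  simp only [zero_smul, add_zero, inner_smul_right, h, mul_zero] at h2
  have h3 := h2.sqrt (by simpa using w0)
  simp only [Real.sqrt_sq (norm_nonneg _), zero_div] at h3
  have h4 := (h3.inv (by simpa using w0)).smul h1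
  simp only [zero_smul, add_zero, neg_zero, zero_div, Pi.inv_apply, inv_smul_smul₀ n] at h4
  exact h4

/-- A lower bound for the first moment from touching functions. -/
theorem ib (ms : MS) {φ l : V → ℝ} {K : NNReal} (hφ : LipschitzOnWith K φ {w | ‖w‖ = 1}) (a : V)
    (hl : ContinuousOn l {w | ‖w‖ = 1})
    (h : ∀ w, ‖w‖ = 1 → ∃ (Φ : V → ℝ) (D : V →L[ℝ] ℝ), HasFDerivAt Φ D w ∧ Φ w = φ w ∧
      (∀ᶠ v in 𝓝 w, ‖v‖ = 1 → Φ v ≤ φ v) ∧ l w ≤ D (a - ⟪w, a⟫ • w)) :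
    ∫ w, l (un w) ∂mS ≤ (dm - 1) * ∫ w, φ (un w) * ⟪un w, a⟫ ∂mS := by
  have al : NS.Alg 0 0 := ⟨le_rfl, by
    have : (1 : ℝ) ≤ dm := Nat.one_le_cast.2 (Nat.succ_pos _)
    linarith, by simp, by simp, by simp, fun w => by
    rw [show NS.Pw 0 w = 0 from rfl, zero_mul]
    exact map_zero _⟩
  obtain ⟨i1, i2⟩ := (NS.sIBP φ K 0 0 ms hφ al).2 a
  rw [add_zero] at i2
  rw [← i2]
  refine integral_mono_ae (ms.rot'.int hl) i1 ?_
  filter_upwards [ms.ac.ae_le (D3LM.ae_diff (volume : Measure V) isOpen_ne (NS.RIBP.un_lip hφ)),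
    ms.rot'.ne] with w hw w0
  have u1 : ‖un w‖ = 1 := DZZ.nrm w0
  obtain ⟨Φ, D, k1, k2, k3, k4⟩ := h (un w) u1
  have e : NS.H0 0 (un w) a = a - ⟪un w, a⟫ • un w := by simp [NS.H0]
  rw [e]
  generalize hη : a - ⟪un w, a⟫ • un w = η at k4
  have p : ⟪w, η⟫ = 0 := by
    rw [← NS.RIBP.smul_un w0, real_inner_smul_left, ← hη, inner_sub_right, real_inner_smul_right,
      real_inner_self_eq_norm_sq, u1]
    ring
  have h5 : HasDerivAt (fun t : ℝ => w + t • ‖w‖ • η) (‖w‖ • η) 0 := by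
    have := ((hasDerivAt_id (0 : ℝ)).smul_const (‖w‖ • η)).const_add w
    rwa [one_smul] at this
  have c1 := (hw w0).hasFDerivAt.comp_hasDerivAt_of_eq (0 : ℝ) h5 (by simp)
  have c2 := k1.comp_hasDerivAt_of_eq (0 : ℝ) (dun w0 p) (by simp)
  have t1 := (dun w0 p).continuousAt.tendsto
  simp only [zero_smul, add_zero] at t1
  have c3 : IsLocalMin _ (0 : ℝ) → _ := fun k => IsLocalMin.hasDerivAt_eq_zero k (c1.sub c2)
  refine k4.trans (sub_eq_zero.1 (c3 ?_)).ge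
  filter_upwards [t1.eventually k3, h5.continuousAt.eventually_ne (y := 0) (by simpa using w0)]
    with s s1 s0
  have := s1 (DZZ.nrm s0)
  simp only [Pi.sub_apply, Function.comp, zero_smul, add_zero, k2]
  linarith

omit [Dim] in
theorem am {X B g s y : ℝ} (hX : 0 < X) (hB : B ^ 2 = 1 + s ^ 2)
    (h : X - g * B + (g - 1) * s ≤ y) :
    X / 2 - g ^ 2 / (2 * X) * (1 + s * s) + (g - 1) * s ≤ y := by
  have e : X - g * B - (X / 2 - g ^ 2 / (2 * X) * B ^ 2) = (X - g * B) ^ 2 / (2 * X) := by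
    field_simp
    ring
  have : 0 ≤ (X - g * B) ^ 2 / (2 * X) := by positivity
  rw [← sq, ← hB]
  linarith

theorem hF {a a₀ w : V} {g : ℝ} (hw : ‖w‖ = 1) (hg : 1 ≤ g)
    (H : √(1 + ‖a‖ ^ 2) * √(1 + ‖a₀‖ ^ 2) - ⟪a, a₀⟫ ≤
      cosh (arsinh ⟪w, a⟫ - arsinh ⟪w, a₀⟫ + log g)) :
    √(1 + ‖a₀‖ ^ 2) - g * √(1 + ⟪w, a₀⟫ ^ 2) + (g - 1) * ⟪w, a₀⟫ ≤
      (√(1 + ⟪w, a⟫ ^ 2))⁻¹ * (⟪a, a₀⟫ - ⟪w, a₀⟫ * ⟪w, a⟫) := by
  have g0 : 0 < g := by linarith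
  rw [cosh_add, cosh_sub, sinh_sub, cosh_arsinh, cosh_arsinh, sinh_arsinh, sinh_arsinh,
    cosh_log g0, sinh_log g0] at H
  have h0 : √(1 + ⟪w, a⟫ ^ 2) ≤ √(1 + ‖a‖ ^ 2) := sqrt_le_sqrt (by
    have := abs_real_inner_le_norm w a
    rw [hw, one_mul] at this
    linarith [sq_le_sq' (abs_le.1 this).1 (abs_le.1 this).2])
  have h1 : ⟪w, a⟫ ≤ √(1 + ⟪w, a⟫ ^ 2) := le_sqrt_of_sq_le (by linarith)
  have h2 : ⟪w, a₀⟫ ≤ √(1 + ⟪w, a₀⟫ ^ 2) := le_sqrt_of_sq_le (by linarith)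
  have h3 := sqrt_nonneg (1 + ⟪w, a₀⟫ ^ 2)
  have h4 : g⁻¹ ≤ 1 := inv_le_one_of_one_le₀ hg
  have h5 : 2 ≤ g + g⁻¹ := by nlinarith [mul_inv_cancel₀ g0.ne', inv_pos.2 g0]
  have h7 := mul_le_mul_of_nonneg_right h0 (sqrt_nonneg (1 + ‖a₀‖ ^ 2))
  rw [le_inv_mul_iff₀ (by positivity)]
  generalize √(1 + ⟪w, a⟫ ^ 2) = B at *
  generalize √(1 + ⟪w, a₀⟫ ^ 2) = B₀ at *
  have h6 : 0 ≤ (g - g⁻¹) * B₀ - (g + g⁻¹ - 2) * ⟪w, a₀⟫ := by
    nlinarith [mul_le_mul_of_nonneg_left h2 (sub_nonneg.2 h5), mul_nonneg h3 (sub_nonneg.2 h4)]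
  nlinarith [mul_nonneg (sub_nonneg.2 h1) h6]

theorem hI {ν a₀ w : V} {g : ℝ} (hw : ‖w‖ = 1) (hν : ‖ν‖ = 1) (ht : 0 < ⟪ν, w⟫)
    (H : (√(1 + ‖a₀‖ ^ 2) - ⟪ν, a₀⟫) * exp (arsinh ⟪w, a₀⟫) ≤ g * ⟪ν, w⟫) :
    √(1 + ‖a₀‖ ^ 2) - g * √(1 + ⟪w, a₀⟫ ^ 2) + (g - 1) * ⟪w, a₀⟫ ≤
      ⟪ν, w⟫⁻¹ * (⟪ν, a₀⟫ - ⟪w, a₀⟫ * ⟪ν, w⟫) := by
  rw [exp_arsinh] at H
  obtain ⟨-, b1⟩ := DRK.CBx.sq1 ⟪w, a₀⟫
  have h2 : ⟪w, a₀⟫ ≤ √(1 + ⟪w, a₀⟫ ^ 2) := le_sqrt_of_sq_le (by linarith)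
  have := mul_le_mul_of_nonneg_right H (sub_nonneg.2 h2)
  have e : (⟪w, a₀⟫ + √(1 + ⟪w, a₀⟫ ^ 2)) * (√(1 + ⟪w, a₀⟫ ^ 2) - ⟪w, a₀⟫) = 1 := by linarith
  rw [mul_assoc, e] at this
  have t1 := real_inner_le_norm ν w
  rw [hν, hw, one_mul] at t1
  have t2 := mul_le_mul_of_nonneg_right t1 (sqrt_nonneg (1 + ‖a₀‖ ^ 2))
  rw [le_inv_mul_iff₀ ht]
  linarith

/-- The inward direction. -/
def SINW : Prop := SATT → OnR fun _ lg dX _ _ A => MS → Hy lg → Lz dX (ur A lg) →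
  Cu (ur A lg) → ∀ g S : ℝ, 1 ≤ g → 0 ≤ S → g ^ 2 < dm → dm * (g ^ 2 - 1) ≤ S ^ 2 * (dm - g ^ 2) →
  (∀ x, ∃ y, y ∈ A.C (log g / 2) x) → Inw lg (ur A lg) (Rg A lg (log g / 2) S)

theorem sINW : SINW := by
  intro att m lg dX P _ A bf bg bh dd nr ms hyp lz cu g S hg hS g2 hn hy x
  have rt := ms.rot'
  have := ms.fin
  have g0 : 0 < g := by linarith
  obtain ⟨y, hy⟩ := hy x
  have dy := (dd.mem x y _).1 hy
  refine ⟨y, 2 * (log g / 2) + S, fun z ⟨y', h1, h2⟩ => ?_, fun z hz => ?_⟩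
  · have a1 := (dd.mem x y' _).1 h1
    have a2 := dd.tri x y z
    have a3 := dd.ly x z y'
    have a4 := self_le_sinh_iff.2 (norm_nonneg (lg (z, y')))
    linarith
  have t1 : S < sinh ‖lg (z, y)‖ := not_le.1 fun h => hz ⟨y, hy, h⟩
  refine ⟨PX.Sh (lg (z, y)), ?_, ?_⟩
  swap
  · rw [PX.Sh, real_inner_smul_right]
    exact mul_nonneg (div_nonneg (hS.trans t1.le) (norm_nonneg _)) real_inner_self_nonneg
  obtain ⟨K, hK⟩ := lz x ‖z‖
  have hφ := (hK x (by rw [bf.self]; exact zero_le_one)).comp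
    (LipschitzWith.prodMk_left z).lipschitzOnWith (s := {w : V | ‖w‖ = 1}) fun w hw => ⟨le_rfl, hw⟩
  set a₀ := PX.Sh (lg (z, y)) with ha
  have x0 : 0 < √(1 + ‖a₀‖ ^ 2) := by positivity
  have lo : ∀ w y', ‖w‖ = 1 → PX.be lg z w y' - Dm A x y' ≤ ur A lg x z w := fun w y' hw =>
    (nr.low x z w y' hw).trans (le_max_right _ _)
  have key := ib ms hφ a₀ (l := fun w => √(1 + ‖a₀‖ ^ 2) / 2 - g ^ 2 / (2 * √(1 + ‖a₀‖ ^ 2)) *
      (1 + ⟪w, a₀⟫ * ⟪w, a₀⟫) + (g - 1) * ⟪w, a₀⟫) (by fun_prop) fun w hw => by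
    obtain ⟨b1, b2⟩ := CBx.nsh (lg (z, y)) w hw
    rcases att m lg dX P A bf bg bh dd nr x z w hw with e | ⟨y', e⟩
    · obtain ⟨p, rfl, p0, p1, -⟩ := bh.max x z w hw
      have ht : 0 < ⟪A.ν p z, w⟫ := pos_of_mul_pos_right p0 (exp_pos _).le
      have hν := (bf.isb p).unit z
      refine ⟨fun v => A.β p z + log ⟪A.ν p z, v⟫, _,
        ((innerSL ℝ (A.ν p z)).hasFDerivAt.log ht.ne').const_add _, ?_, ?_, am x0
          (DRK.CBx.sq1 _).2 ((hI hw hν ht ?_).trans_eq ?_)⟩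
      · change _ = ur A lg (A.pr p) z w
        rw [e, p1, gq, log_mul (exp_pos _).ne' ht.ne', log_exp]
      · have c : Continuous fun v : V => ⟪A.ν p z, v⟫ := by fun_prop
        filter_upwards [c.continuousAt.eventually (lt_mem_nhds ht)] with v v0 hv
        obtain ⟨q, -, -, q1, q2⟩ := bh.max (A.pr p) z v hv
        have := log_le_log (mul_pos (exp_pos _) v0) (q2 p rfl)
        rw [log_mul (exp_pos _).ne' v0.ne', log_exp, ← q1] at this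
        exact this.trans (le_max_left _ _)
      · have h2 : exp (PX.be lg z w y - log g / 2) ≤ exp (A.β p z) * ⟪A.ν p z, w⟫ := by
          refine (exp_le_exp.2 ((sub_le_sub_left dy _).trans (lo w y hw))).trans_eq ?_
          rw [e, p1, exp_log p0, gq]
        obtain ⟨u, hu, e1, e2⟩ := PX.b1_pol (lg (z, y)) w hw
        have h3 := (bf.isb p).lb z u ‖lg (z, y)‖ hu
        have h4 := bf.yw.had.ex z y
        rw [e1, bf.yw.jac.scale, mul_one] at h4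
        rw [h4, mul_comm ⟪_, u⟫, ← real_inner_smul_right, ← e2, ← b2] at h3
        have h5 : ⟪A.ν p z, a₀⟫ ≤ √(1 + ‖a₀‖ ^ 2) := (real_inner_le_norm _ _).trans (by
          rw [hν, one_mul]; exact le_sqrt_of_sq_le (by linarith))
        have h6 : exp (log g / 2) * exp (log g / 2) = g := by
          rw [← exp_add, add_halves, exp_log g0]
        rw [exp_sub, div_le_iff₀ (exp_pos _), PX.be] at h2
        have h7 := mul_le_mul_of_nonneg_right (h3.trans (exp_le_exp.2 (hy p rfl)))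
          (mul_nonneg ht.le (exp_pos (log g / 2)).le)
        have h8 := mul_le_mul_of_nonneg_left h2 (sub_nonneg.2 h5)
        rw [← h6]
        linarith
      · simp [inner_sub_right, real_inner_smul_right]
    · obtain ⟨-, a2⟩ := CBx.nsh (lg (z, y')) w hw
      have d := ((innerSL ℝ (PX.Sh (lg (z, y')))).hasFDerivAt (x := w)).arsinh
      refine ⟨fun v => arsinh ⟪PX.Sh (lg (z, y')), v⟫ - Dm A x y', _, d.sub_const _, ?_,
        Eventually.of_forall fun v hv => ?_, am x0 (DRK.CBx.sq1 _).2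
          ((hF (a := PX.Sh (lg (z, y'))) hw hg ?_).trans_eq ?_)⟩
      · change _ = ur A lg x z w
        rw [e, PX.be, real_inner_comm]
      · have := lo v y' hv
        rwa [PX.be, real_inner_comm] at this
      · have h2 := (lo w y hw).trans e.le
        have h3 := dd.tri x y' y
        rw [a2, b2]
        refine (hyp z y' y).trans (cosh_le_cosh.2 ((abs_norm _).trans_le
          (le_trans ?_ (le_abs_self _))))
        unfold PX.be at h2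
        linarith
      · simp [inner_sub_right, real_inner_smul_right, real_inner_comm w]
  obtain ⟨-, a2⟩ := DZZ.av_inner rt (cu x) z a₀ (.refl ℝ V)
  simp only [LinearIsometryEquiv.coe_refl, id_eq] at a2
  have i1 : Integrable (fun w => ⟪un w, a₀⟫) mS := rt.int (f := fun w => ⟪w, a₀⟫) (by fun_prop)
  have i2 : Integrable (fun w => ⟪un w, a₀⟫ * ⟪un w, a₀⟫) mS :=
    rt.int (f := fun w => ⟪w, a₀⟫ * ⟪w, a₀⟫) (by fun_prop)
  have i3 : ∫ w, ⟪un w, a₀⟫ ∂mS = 0 := by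
    have := rt.comp (.neg ℝ) fun w => ⟪w, a₀⟫
    simp only [LinearIsometryEquiv.coe_neg, inner_neg_left, integral_neg] at this
    change ∫ w, ⟪‖w‖⁻¹ • w, a₀⟫ ∂mS = 0
    linarith
  have i4 : Integrable (fun w => 1 + ⟪un w, a₀⟫ * ⟪un w, a₀⟫) mS := (integrable_const _).add i2
  have i5 : Integrable (fun w => √(1 + ‖a₀‖ ^ 2) / 2 - g ^ 2 / (2 * √(1 + ‖a₀‖ ^ 2)) *
      (1 + ⟪un w, a₀⟫ * ⟪un w, a₀⟫)) mS := (integrable_const _).sub (i4.const_mul _)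
  rw [integral_add i5 (i1.const_mul _), integral_sub (integrable_const _) (i4.const_mul _),
    integral_const_mul, integral_const_mul, integral_add (integrable_const _) i2, i3, ms.iso,
    integral_const, integral_const, ms.mass, real_inner_self_eq_norm_sq] at key
  have n1 : ‖a₀‖ = sinh ‖lg (z, y)‖ := by
    rw [ha, PX.Sh, norm_smul, Real.norm_of_nonneg (div_nonneg (hS.trans t1.le) (norm_nonneg _)),
      div_mul_cancel₀]
    intro h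
    rw [h, sinh_zero] at t1
    linarith
  have n2 : S ^ 2 < ‖a₀‖ ^ 2 := by rw [n1]; gcongr
  have n3 := mul_lt_mul_of_pos_right n2 (sub_pos.2 g2)
  have x2 : √(1 + ‖a₀‖ ^ 2) ^ 2 = 1 + ‖a₀‖ ^ 2 := sq_sqrt (by positivity)
  generalize √(1 + ‖a₀‖ ^ 2) = X at *
  have n4 : 0 < (dm * X ^ 2 - g ^ 2 * (dm + ‖a₀‖ ^ 2)) / (2 * X) :=
    div_pos (by rw [x2]; linarith) (by positivity)
  have n5 : (dm * X ^ 2 - g ^ 2 * (dm + ‖a₀‖ ^ 2)) / (2 * X) =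
      dm * (X / 2) - g ^ 2 / (2 * X) * (dm * 1 + ‖a₀‖ ^ 2) + (g - 1) * 0 := by
    field_simp
    ring
  have n6 : (0 : ℝ) ≤ dm - 1 := by nlinarith
  exact (pos_of_mul_pos_right ((n4.trans_eq n5).trans_le key) n6).trans_eq a2.symm

end Pool.Agent.MP_3ee8cb_gt.DRS
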