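import Pool.Agent.MP_3ee8cb_gt.DQ.All
import Pool.Agent.MP_3ee8cb_gt.DQ.B7ZERO
import Pool.Agent.MP_3ee8cb_gt.DR.RATT
import Pool.Agent.MP_3ee8cb_gt.DR.RDD
import Pool.Agent.MP_3ee8cb_gt.DR.REND1
import Pool.Agent.MP_3ee8cb_gt.DR.REQV
import Pool.Agent.MP_3ee8cb_gt.DR.RHE
import Pool.Agent.MP_3ee8cb_gt.DR.RHY
import Pool.Agent.MP_3ee8cb_gt.DR.RINW
import Pool.Agent.MP_3ee8cb_gt.DR.RJB
import Pool.Agent.MP_3ee8cb_gt.DR.RJU
import Pool.Agent.MP_3ee8cb_gt.DR.RM4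
import Pool.Agent.MP_3ee8cb_gt.DR.RNR
import Pool.Agent.MP_3ee8cb_gt.DR.RNU1
import Pool.Agent.MP_3ee8cb_gt.DR.RPORT
import Pool.Agent.MP_3ee8cb_gt.DR.RREG
import Pool.Agent.MP_3ee8cb_gt.DR.RS24
import Pool.Agent.MP_3ee8cb_gt.DR.RTAB
import Pool.Agent.MP_3ee8cb_gt.DR.RTF
import Pool.Agent.MP_3ee8cb_gt.DR.RTI
import Pool.Agent.MP_3ee8cb_gt.DR.B80LZ
import Pool.Agent.MP_3ee8cb_gt.DRS.Inw
import Pool.Agent.MP_3ee8cb_gt.DND0.Fin

/-! Rigidity under a pinching of order the inverse square root of the dimension. -/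

namespace Pool.Agent.MP_3ee8cb_gt.DRS

open DN (Dim dm)

variable [Dim]

open Set Filter Topology MeasureTheory Real DN DZ DQ DR
open CR (Met UT dd ng)
open scoped RealInnerProductSpace

/-- The inward direction for given constants. -/
def IW (g S : ℝ) : Prop := OnR fun _ lg dX _ _ A => Hy lg → Lz dX (ur A lg) → Cu (ur A lg) →
  (∀ x, ∃ y, y ∈ A.C (log g / 2) x) → Inw lg (ur A lg) (Rg A lg (log g / 2) S)

theorem main_of {k e c g₀ g₁ S : ℝ} (k0 : 0 ≤ k) (e0 : 0 ≤ e) (e4 : (dm - 1) * e < 4)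
    (c0 : 0 ≤ c) (n1 : Nu1 k e √c) (g0 : 2 * dm / (dm + 1) < g₀) (g1 : g₀ < g₁)
    (cb : (g₁ + (g₁ - 1) ^ 2 / (2 * g₁)) * (√(1 + S ^ 2) + S) ≤ c) (iw : IW g₀ S) :
    SLN.MainZ ((1 + k) ^ 2 - 1) := by
  have ee : √e ^ 2 = e := sq_sqrt e0
  have cc : √c ^ 2 = c := sq_sqrt c0
  have d1' : (1 : ℝ) ≤ dm := Nat.one_le_cast.2 (Nat.succ_pos _)
  have g2 : 1 ≤ g₀ := le_trans ((le_div_iff₀ (by positivity)).2 (by linarith)) g0.le
  have ll : log g₀ / 2 < log g₁ / 2 := by linarith [log_lt_log (by linarith) g1]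
  intro g h C C' Γ Λ _ _ _ _ Φ Ψ ρ G₀ qg qh cg ch dΓ dΛ cj₀ kh
  have kh' : TB.CurvLe h 1 := ⟨C', ch, fun x u v => by simpa using (kh x u v).2⟩
  obtain ⟨m₀, o₀, l₀⟩ := sFRM g C Γ Φ qg cg
  obtain ⟨m, o, l⟩ := sFRM h C' Λ Ψ qh ch
  have j := sJAC m o
  obtain ⟨O, aO⟩ := sACT h C' Λ Ψ qh ch m o l dΛ
  obtain ⟨lg, hl, hd⟩ := DNFL.had h C' Λ Ψ qh ch m 1 o j l one_pos kh'
  obtain ⟨-, s, F, -, cj, fp⟩ :=
    DNFL.flp g h C C' Γ Λ Φ Ψ ρ G₀ qg qh cg ch dΓ dΛ cj₀ 1 one_pos kh'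
  have cs : ∀ u v : V, 0 ≤ ‖u‖ ^ 2 * ‖v‖ ^ 2 - ⟪u, v⟫ ^ 2 := fun u v => by
    have := real_inner_mul_inner_self_le u v
    rw [real_inner_self_eq_norm_sq, real_inner_self_eq_norm_sq] at this
    nlinarith
  have u1 : m.Up 1 := fun y u v => by
    have := (kh y (m.R y u) (m.R y v)).2
    rw [(l.sec o y u v).1, ← (l.sec o y u v).2]
    linarith
  have d1 : m.Dn ((1 + k) ^ 2) := fun y u v => by
    have := (kh y (m.R y u) (m.R y v)).1
    rw [(l.sec o y u v).1, ← (l.sec o y u v).2]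
    linarith
  have u0 : m.Up 0 := fun y u v =>
    le_trans (mul_le_mul_of_nonneg_right zero_le_one (cs u v)) (u1 y u v)
  have yw : YW m lg := ⟨o, j, hl, u0⟩
  have as := sASY h C' Λ Ψ qh ch kh'
  obtain ⟨ν, hν⟩ := sEXA h C' Λ Ψ qh ch m lg kh' as yw l hd
  have nb : NB h C' Ψ m lg ν := ⟨kh', yw, l, hd, as, sBC h C' Λ Ψ qh ch kh', fun w => (hν w).1,
    fun w => sB1 m lg _ _ yw (hν w).1, fun w => (hν w).2⟩
  have B := sBF sMOV sLIP sGR g h C C' Γ Λ Φ Ψ ρ F qg qh cg ch dΓ dΛ cj m lg ν nb fp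
  have G := sBG m lg _ _ _ B
  have H := sBH m lg _ _ _ B G
  have X := xw g C Γ Φ qg cg m₀ o₀ l₀
  have b1 : (1 : ℝ) ≤ 1 + k := by linarith
  have HS : ∀ p z, Hs m k ((fam Ψ F ν).ν p) z := fun p z => by
    have := sHES m lg (1 + k) _ _ yw b1 (B.isb p) (sHD m lg _ yw b1 (sJ2 m _ o j b1 u1 d1))
      (sAP m lg _ _ yw (sTH m lg yw) (B.isb p) (B.b1 p)) z
    rwa [add_sub_cancel_left] at this
  obtain ⟨hy, pb⟩ := sHY m lg yw (DN.sHN h C' Λ Ψ qh ch m lg 1 o l one_pos kh' hd)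
  have HF : Hf m lg k := sHF m lg k yw k0 (by
    have := sHE m lg (1 + k) yw b1 u1 d1
    rwa [add_sub_cancel_left] at this)
  have D := sDD m lg _ _ _ B G H
  have N := sNR m lg _ _ _ B G H D pb
  obtain ⟨x1, -, x3⟩ := DQ.sLX m lg _ _ _ B G H
  have x2 := DR.sLX m lg _ _ _ B G H D N
  set A := fam Ψ F ν with hA
  have LZ : Lz (dd g) (ur A lg) := fun x₀ R => by
    obtain ⟨K, hK⟩ := DQ.sLZ m lg _ _ _ B G H k k0 HS x₀ R
    obtain ⟨K', hK'⟩ := lz80 m lg _ _ _ B G H D N k k0 HF x₀ R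
    refine ⟨max K K', fun x hx => LipschitzOnWith.of_dist_le_mul fun a ha b hb => ?_⟩
    refine (abs_max_sub_max_le_max _ _ _ _).trans (max_le ?_ ?_)
    · exact ((hK x hx).weaken (le_max_left _ _)).dist_le_mul a ha b hb
    · exact ((hK' x hx).weaken (le_max_right _ _)).dist_le_mul a ha b hb
  have CU : Cu (ur A lg) := Z7.cont LZ X.self
  have nu : Nu1 k (√e ^ 2) √c := ee.symm ▸ n1
  have S' : Sq m lg (dd g) √e (ur A lg) (Rg A lg (log g₁ / 2) S) (Rg A lg (log g₀ / 2) S)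
      (fun x z => Qr (ur A lg x z)) := by
    refine ⟨fun x x' z w hw => (abs_max_sub_max_le_max _ _ _ _).trans
      (max_le (x1 x x' z w hw) (x2 x x' z w hw)), LZ, fun x z w hz hw => ?_,
      sREG m lg _ _ _ B G H _ _, ⟨_, sub_pos.2 ll, fun x x' hx z ⟨y, y1, y2⟩ =>
        ⟨y, x3 _ _ x x' hx y1, y2⟩⟩,
      iw m lg _ _ _ B G H D N hy LZ CU (sJU sHEL m lg _ _ _ B G H D g₀ g0)⟩
    rcases sATT m lg _ _ _ B G H D N x z w hw with a | ⟨y, a⟩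
    · obtain ⟨p, rfl, p0, p1, -⟩ := H.max x z w hw
      have a1 : exp (ur A lg (A.pr p) z w) = gq (A.β p) (A.ν p) (z, w) := by
        rw [a, p1, exp_log p0]
      refine sTI m lg k _ _ _ _ (fun q => ur A lg (A.pr p) q.1 q.2) z w yw (B.isb p) (B.b1 p)
        (HS p z) k0 nu hw (cc.symm ▸ sCI sCB m lg _ _ _ B G H D N g₁ S c p z w (by linarith) cb
          hz hw a1) a1 fun q hq => ?_
      obtain ⟨p', -, q0, q1, q2⟩ := H.max (A.pr p) q.1 q.2 hq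
      refine (q2 p rfl).trans ?_
      rw [← exp_log q0, ← q1]
      exact exp_le_exp.2 (le_max_left _ _)
    · exact sTF m lg k _ _ _ (fun q => ur A lg x q.1 q.2) z w y yw HF k0 nu hw
        (cc.symm ▸ sCF sCB m lg _ _ _ B G H D N hy g₁ S c x z w y (by linarith) cb hz hw a) a
        fun q hq => (N.low x q.1 q.2 y hq).trans (le_max_right _ _)
  have ε4 : (dm - 1) * √e ^ 2 < 4 := ee.symm ▸ e4
  obtain ⟨f, Z⟩ := DR.sZERO m₀ m lg _ _ _ _ _ _ sMS X yw ε4 S'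
  have L := DR.sFL m₀ m lg _ _ _ _ _ _ sMS X yw ε4 S' f Z
  have J := DR.sJA m₀ m lg _ _ _ _ _ _ sMS X yw ε4 S' f Z L
  have E := DR.sEQV g h C C' Γ Λ Φ Ψ ρ F qg qh cg ch dΓ dΛ cj m lg ν O _ _ _ f sMS nb aO ll.le Z
  have Su := sONTO g h C C' Γ Λ Φ Ψ ρ F qg qh cg ch dΓ dΛ cj m lg ν f
    (log 2 + log g₀ / 2 + |S|) nb L.continuous fun p => by
      obtain ⟨y, y1, y2⟩ := Z.mem (A.pr p)
      have a1 := (D.mem _ y _).1 y1
      have a2 := D.tri (A.pr p) (A.ft p) (f (A.pr p))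
      have a3 := D.ly (A.pr p) (f (A.pr p)) y
      have a4 := self_le_sinh_iff.2 (norm_nonneg (lg (f (A.pr p), y)))
      obtain ⟨q, q1, q2⟩ := D.max (A.pr p) (A.ft p)
      have a5 := G.two q p q1
      have a6 := le_abs_self S
      change ‖lg (A.ft p, f (A.pr p))‖ ≤ _
      linarith
  have J' := J.mono fun x hx => DR.sJB _ _ _ sMS ε4 hx.2
  have W := sVOL RVOL.veq RVOL.area g h C C' Γ Λ Φ Ψ ρ F qg qh cg ch dΓ dΛ cj m₀ m f kh' o₀ o l₀ l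
    L Su E (J'.mono fun x hx => hx.1)
  refine sEND2 g h C C' Γ Λ Φ Ψ ρ F qg qh cg ch dΓ dΛ cj m₀ m lg ν f o₀ (sJAC m₀ o₀) l₀ nb
    L.continuous ?_
  filter_upwards [J, J', W] with x h1 h2 h3
  exact ⟨h1.1, DR.sEND1 m lg _ _ _ B G H D N sMS CU x (f x) (h2.2 h3)⟩

theorem main_tab {k e c g₀ g₁ S l : ℝ} (k0 : 0 ≤ k) (T : Tab dm k e c g₀ g₁ S l) :
    SLN.MainZ ((1 + k) ^ 2 - 1) := by
  have d1' : (1 : ℝ) ≤ dm := Nat.one_le_cast.2 (Nat.succ_pos _)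
  have g2 : 1 ≤ g₀ := le_trans ((le_div_iff₀ (by positivity)).2 (by linarith)) T.g0.le
  exact main_of k0 T.e0 T.e4 (zero_le_one.trans T.c1)
    (sNU1 _ _ _ k0 T.e0 T.c1 T.a1 T.a2 T.a3) T.g0 T.g1 T.cb
    fun m lg dX P _ A B G H D N _ _ cu hy => DR.sINW m lg dX P A B G H D N sMS cu _ S T.s0
      (s24 sM4 sMS _ S l (by linarith [log_nonneg g2]) T.s0 T.l0 T.far) hy

theorem main_big (n : 16 ≤ dm) : SLN.MainZ ((1 + 6 / (5 * √dm)) ^ 2 - 1) := by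
  have n' : (16 : ℝ) ≤ dm := by exact_mod_cast n
  have q0 : 4 ≤ √(dm : ℝ) := le_sqrt_of_sq_le (by linarith)
  have q2 : √(dm : ℝ) ^ 2 = dm := sq_sqrt (by linarith)
  obtain ⟨s, hs⟩ : ∃ s, s = (√(dm : ℝ))⁻¹ := ⟨_, rfl⟩
  have s0 : 0 < s := hs ▸ by positivity
  have s1 : s * √(dm : ℝ) = 1 := hs ▸ inv_mul_cancel₀ (by positivity)
  have s2 : s ^ 2 * dm = 1 := by rw [← q2, ← mul_pow, s1, one_pow]
  have s4 : s ≤ 1 / 4 := by nlinarith
  have e1 : 6 / (5 * √(dm : ℝ)) = 6 / 5 * s := by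
    rw [hs]
    field_simp
  rw [e1]
  have r5 : √(1 + 2 ^ 2 : ℝ) ≤ 9 / 4 := sqrt_le_iff.2 ⟨by norm_num, by norm_num⟩
  refine main_of (e := 4 * s ^ 2) (c := 10) (g₀ := 2) (g₁ := 201 / 100) (S := 2) (by positivity)
    (by positivity) (by nlinarith) (by norm_num) (sNU1 _ _ _ (by positivity) (by positivity)
      (by norm_num) (by nlinarith) (by nlinarith [pow_pos s0 3, pow_pos s0 4])
      (by nlinarith [pow_pos s0 3, pow_pos s0 4])) ((div_lt_iff₀ (by positivity)).2 (by linarith))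
    (by norm_num) (by linarith) fun m lg dX P _ A B G H D N hy lz cu =>
      DRS.sINW sATT m lg dX P A B G H D N sMS hy lz cu 2 2 one_le_two zero_le_two (by linarith)
        (by linarith)

/-- Rigidity for the larger of the two constants. -/
theorem main :
    SLN.MainZ ((1 + max (61 / (10 * (dm : ℝ))) (6 / (5 * √dm))) ^ 2 - 1) := by
  rcases le_total (6 / (5 * √(dm : ℝ))) (61 / (10 * (dm : ℝ))) with h | h
  · obtain ⟨e, c, g₀, g₁, S, l, T⟩ := sTAB dm (Nat.le_add_left _ _)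
    rw [max_eq_left h]
    exact main_tab (by positivity) T
  rw [max_eq_right h]
  refine main_big (not_lt.1 fun k => ?_)
  have n' : (3 : ℝ) ≤ dm := by exact_mod_cast Nat.le_add_left 3 _
  have k' : (dm : ℝ) ≤ 16 := by exact_mod_cast k.le
  have q0 : 0 < √(dm : ℝ) := by positivity
  have q1 : √(dm : ℝ) ≤ 4 := sqrt_le_iff.2 ⟨by norm_num, by linarith⟩
  have q2 : √(dm : ℝ) ^ 2 = dm := sq_sqrt (by linarith)
  rw [div_le_div_iff₀ (by positivity) (by positivity)] at h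
  nlinarith

end Pool.Agent.MP_3ee8cb_gt.DRS
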